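import Mathlib

namespace Pool.Agent.Results.MP_c51eea_al.Dihedral

open Polynomial DihedralGroup

/-- `G` is isomorphic to the unit group of a finite ring. -/
def Realizable (G : Type) [Group G] : Prop :=
  ∃ (R : Type) (_ : Ring R) (_ : Finite R), Nonempty (Rˣ ≃* G)

lemma comb {R : Type} [Ring R] (x : R) {p1 p2 p3 q : ℤ[X]} (h1 : aeval x p1 = 0)
    (h2 : aeval x p2 = 0) (h3 : aeval x p3 = 0) (c1 c2 c3 : ℤ[X])
    (h : q = c1 * p1 + c2 * p2 + c3 * p3) : aeval x q = 0 := by
  rw [h]; simp [h1, h2, h3]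

lemma core {R : Type} [Ring R] [Finite R] (x s : R) (h8 : x ^ 8 = 1) (hs : s * s = 1)
    (hx : x * s * x = s) (hn : x * s ≠ s * x)
    (D : ∀ v : R, IsUnit v → x * v = v * x ∨ x * v * x = v) : x ^ 4 = 1 := by
  haveI := Fintype.ofFinite R
  obtain ⟨e, k, ⟨j, hj⟩, hk⟩ := Nat.exists_eq_two_pow_mul_odd (Fintype.card_ne_zero (α := R))
  have hc : IsCoprime (1 - 4 * (k : ℤ) ^ 2) ((Fintype.card R : ℕ) : ℤ) := by
    rw [hk]; push_cast
    exact IsCoprime.mul_right (IsCoprime.pow_right ⟨1, 2 * k ^ 2, by ring⟩) ⟨1, 4 * k, by ring⟩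
  obtain ⟨u, w, huw⟩ := hc
  have hu : (u * (1 - (2 * k) * (2 * k) : ℤ)) • (1 : R) = 1 := by
    have := congrArg (fun z : ℤ => z • (1 : R)) huw
    simp only [add_smul, one_smul] at this
    rw [mul_smul w, natCast_zsmul, card_nsmul_eq_zero, smul_zero, add_zero] at this
    rw [← this]; congr 1; ring
  have hv1 : IsUnit (s + (2 * k : ℤ) • (1 : R)) := by
    refine IsUnit.of_mul_eq_one (u • (s - (2 * k : ℤ) • (1 : R))) ?_
    refine Eq.trans ?_ hu
    generalize (2 * k : ℤ) = n
    rw [mul_smul_comm, mul_smul]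
    congr 1
    simp only [mul_sub, add_mul, hs, smul_mul_assoc, mul_smul_comm, one_mul, mul_one, sub_smul,
      one_smul, mul_smul, smul_add]
    abel
  have p1 : aeval x (X ^ 8 - 1 : ℤ[X]) = 0 := by simp [h8]
  have p3 : aeval x (C (2 * k : ℤ) * (X ^ 2 - 1) : ℤ[X]) = 0 := by
    rcases D _ hv1 with h | h
    · simp only [mul_add, add_mul, mul_smul_comm, smul_mul_assoc, mul_one, one_mul] at h
      exact (hn (add_right_cancel h)).elim
    · rw [← smul_eq_C_mul, map_smul]
      simp only [mul_add, add_mul, hx, mul_smul_comm, smul_mul_assoc, mul_one] at h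
      simp only [map_sub, map_pow, aeval_X, map_one, smul_sub]
      rw [sq, add_left_cancel h, sub_self]
  have hsx : s * x = x ^ 7 * s := by
    calc s * x = x ^ 8 * s * x := by rw [h8, one_mul]
      _ = x ^ 7 * (x * s * x) := by noncomm_ring
      _ = _ := by rw [hx]
  set a := x - x ^ 7 with ha
  have hsa : s * a = -(a * s) := by
    have : s * x ^ 7 = x * s := by
      calc s * x ^ 7 = x * s * x * x ^ 7 := by rw [hx]
        _ = x * s * x ^ 8 := by noncomm_ring
        _ = _ := by rw [h8, mul_one]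
    rw [ha, mul_sub, sub_mul, hsx, this]; abel
  have hb : (a + a * s) * (a + a * s) = 0 := by
    calc (a + a * s) * (a + a * s) = a * a + a * a * s + a * (s * a) + a * (s * a) * s := by
          noncomm_ring
      _ = a * a - a * a * (s * s) := by rw [hsa]; noncomm_ring
      _ = 0 := by rw [hs]; simp
  have key : ∀ c : ℤ, c * c = 1 → aeval x ((X - X ^ 7) ^ 2 : ℤ[X]) = 0 ∨
      aeval x ((1 + C c * (X - X ^ 7)) * (X ^ 2 - 1) : ℤ[X]) = 0 := fun c hc => by
    have hv : IsUnit (1 + c • (a + a * s)) := by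
      refine IsUnit.of_mul_eq_one (1 - c • (a + a * s)) ?_
      simp only [mul_sub, add_mul, smul_mul_assoc, mul_smul_comm, hb, one_mul, mul_one, smul_zero]
      simp
    have hxa : x * a = a * x := by rw [ha]; noncomm_ring
    rcases D _ hv with h | h
    · left
      have h1 : c • (x * (a + a * s)) = c • ((a + a * s) * x) := by
        rw [mul_add, add_mul, mul_one, one_mul, mul_smul_comm, smul_mul_assoc] at h
        exact add_left_cancel h
      have h2 : x * (a + a * s) = (a + a * s) * x := by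
        have := congrArg (fun z => c • z) h1
        simpa only [smul_smul, hc, one_smul] using this
      have h3 : a * a * s = 0 := by
        calc a * a * s = a * x * s - a * (x ^ 7 * s) := by
              conv_lhs => rw [mul_assoc]; congr; rfl; rw [ha]
              noncomm_ring
          _ = x * (a + a * s) - (a + a * s) * x := by
              rw [← hsx, mul_add, add_mul, ← mul_assoc x a s, hxa, mul_assoc a s x]; abel
          _ = 0 := by rw [h2, sub_self]
      have h4 : a * a = 0 := by rw [← mul_one (a * a), ← hs, ← mul_assoc, h3, zero_mul]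
      simpa [sq, ← ha] using h4
    · right
      have h1 : x * (a * s) * x = a * s := by
        rw [← mul_assoc, hxa, mul_assoc a, mul_assoc a, hx]
      simp only [mul_add, add_mul, mul_smul_comm, smul_mul_assoc, smul_add, h1, mul_one,
        ← add_assoc] at h
      have h2 := add_right_cancel h
      rw [← smul_eq_C_mul]
      simp only [map_mul, map_add, map_one, map_smul, map_sub, map_pow, aeval_X, ← ha]
      rw [hxa] at h2
      rw [mul_sub, mul_one, add_mul, one_mul, smul_mul_assoc, sq, ← mul_assoc, h2, sub_self]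
  have fin : aeval x (X ^ 4 - 1 : ℤ[X]) = 0 := by
    have caseA : aeval x ((X - X ^ 7) ^ 2 : ℤ[X]) = 0 → aeval x (X ^ 4 - 1 : ℤ[X]) = 0 := by
      intro p2
      have q1 : aeval x ((X ^ 2 - 1) ^ 2 : ℤ[X]) = 0 :=
        comb x p1 p2 p2 (2 * X * (X - X ^ 7) + (X ^ 8 - 1)) (X ^ 2) 0 (by ring)
      have q2 : aeval x (4 * (X ^ 2 - 1) : ℤ[X]) = 0 :=
        comb x p1 q1 q1 1 (-(6 + 4 * (X ^ 2 - 1) + (X ^ 2 - 1) ^ 2)) 0 (by ring)
      refine comb x p3 q2 q1 1 (-(j : ℤ[X])) 1 ?_
      rw [hj]; simp; ring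
    rcases key 1 (by norm_num) with p2 | p2
    · exact caseA p2
    rcases key (-1) (by norm_num) with p4 | p4
    · exact caseA p4
    simp only [map_one, map_neg] at p2 p4
    have q1 : aeval x (2 * (X ^ 2 - 1) : ℤ[X]) = 0 := comb x p2 p4 p4 1 1 0 (by ring)
    have q2 : aeval x ((X - X ^ 7) ^ 4 * (X ^ 2 - 1) : ℤ[X]) = 0 :=
      comb x p1 q1 q1 ((X ^ 2 - 1) * X ^ 4 * (X ^ 16 + X ^ 8 + 1))
        (X ^ 4 - 2 * X ^ 10 + 3 * X ^ 16 - 2 * X ^ 22) 0 (by ring)
    exact comb x p2 q2 q2 ((X ^ 2 + 1) * (1 - (X - X ^ 7)) * (1 + (X - X ^ 7) ^ 2))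
      (X ^ 2 + 1) 0 (by ring)
  simpa [sub_eq_zero] using fin

lemma main (H : Type) [Group H] : ¬ Realizable (DihedralGroup 8 × H) := by
  rintro ⟨R, _, _, ⟨φ⟩⟩
  let ι : DihedralGroup 8 →* R := (Units.coeHom R).comp
    (φ.symm.toMonoidHom.comp (MonoidHom.inl _ H))
  have hι : Function.Injective ι := fun a b h => by
    have := φ.symm.injective (Units.val_injective h)
    simpa using this
  have := core (ι (r 1)) (ι (sr 0)) (by rw [← map_pow, ← ι.map_one]; congr 1)
    (by rw [← map_mul, ← ι.map_one]; congr 1) (by rw [← map_mul, ← map_mul]; congr 1)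
    (by rw [← map_mul, ← map_mul]; exact fun h => absurd (hι h) (by decide)) ?_
  · rw [← map_pow, ← ι.map_one] at this
    exact absurd (hι this) (by decide)
  · rintro _ ⟨v, rfl⟩
    obtain ⟨⟨g, h⟩, rfl⟩ := φ.symm.surjective v
    have hd : ∀ g : DihedralGroup 8, r 1 * g = g * r 1 ∨ r 1 * g * r 1 = g := by decide
    have e : ι (r 1) = ((φ.symm (r 1, 1) : Rˣ) : R) := rfl
    simp only [e, ← Units.val_mul, ← map_mul, Prod.mk_mul_mk, one_mul, mul_one]
    exact (hd g).imp (fun h => by rw [h]) (fun h => by rw [h])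

theorem result : IsPGroup 2 (DihedralGroup 8) ∧ (∃ a b : DihedralGroup 8, a * b ≠ b * a) ∧
    ¬ Realizable (DihedralGroup 8) ∧
    ∀ (H : Type) [Group H], ¬ Realizable (DihedralGroup 8 × H) := by
  refine ⟨IsPGroup.of_card (n := 4) (by simp [DihedralGroup.card]), ⟨r 1, sr 0, by decide⟩, ?_,
    main⟩
  rintro ⟨R, _, _, ⟨φ⟩⟩
  exact main Unit ⟨R, _, ‹_›, ⟨φ.trans MulEquiv.prodUnique.symm⟩⟩

end Pool.Agent.Results.MP_c51eea_al.Dihedral
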